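import Mathlib
import Pool.Agent.H.MP_8d2225_pr.Disc

namespace Pool.Agent.Results.MP_1e9518_pr.NoSepCutoff

open Filter Topology Pool.Agent.H.MP_8d2225_pr

theorem result : ∃ (V : ℕ → Type) (_ : ∀ n, Fintype (V n)) (_ : ∀ n, DecidableEq (V n))
    (G : ∀ n, SimpleGraph (V n)),
    Tendsto (fun n => Fintype.card (V n)) atTop atTop ∧
    (∀ n, (G n).Connected ∧ ∀ x y, ∃ φ : G n ≃g G n, φ x = y) ∧
    Tendsto (fun n => (tmix (gw (1 / 2) (G n)) (1 / 4) : ℝ) / trel (gw (1 / 2) (G n))) atTop atTop ∧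
    ¬ ∀ ε ∈ Set.Ioo (0 : ℝ) (1 / 2), Tendsto (fun n =>
      (tsep (gw (1 / 2) (G n)) ε : ℝ) / tsep (gw (1 / 2) (G n)) (1 - ε)) atTop (𝓝 1) := by
  choose G i1 i2 i3 S h using fun n => pack (n + 2) (12 * (n + 2)) (by omega)
  refine ⟨G, i2, i3, fun n => cay (h n), ?_, fun n => ⟨cay_conn (h n), cay_trans (h n)⟩, ?_,
    fun hc => ?_⟩
  · exact tendsto_atTop_mono (fun n => (h n).card) (tendsto_add_atTop_nat 2)
  · simp only [gw_cay]
    exact to_top fun n => ((h n).lazy (by omega)).1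
  · simp only [gw_cay] at hc
    exact not_one (fun n => (h n).lazy_sep (by omega)) (hc (1 / 4) (by norm_num))

end Pool.Agent.Results.MP_1e9518_pr.NoSepCutoff
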